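import Mathlib
import Pool.Agent.LamChoose.Proof

/-!
# A planar graph with no odd wheel that is not `{1,3}`-choosable  (problem MP_296adc_co, Q2)

We disprove the first of the two statements of Q2: it is not true that every planar graph
containing no odd wheel is `{1,3}`-choosable.  The counterexample has 327 vertices and 921 edges.
-/

namespace Pool.Agent.Results.MP_296adc_co.NotOneThree

open Pool.Agent.LamChoose

/-! ## Definitions used in the statement -/

/-- The `k`-wheel `W_k` (for `k ≥ 3`): the cycle `C_k` on the vertices `some i`, `i : Fin k`,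
together with one extra vertex `none` adjacent to all of them. -/
def wheel (k : ℕ) : SimpleGraph (Option (Fin k)) where
  Adj x y := (x = none ∧ y ≠ none) ∨ (x ≠ none ∧ y = none) ∨
    ∃ i j, x = some i ∧ y = some j ∧ (SimpleGraph.cycleGraph k).Adj i j
  symm := ⟨by
    rintro x y (⟨h1, h2⟩ | ⟨h1, h2⟩ | ⟨i, j, h1, h2, h3⟩)
    · exact Or.inr (Or.inl ⟨h2, h1⟩)
    · exact Or.inl ⟨h2, h1⟩
    · exact Or.inr (Or.inr ⟨j, i, h2, h1, h3.symm⟩)⟩
  loopless := ⟨by
    rintro x (⟨h1, h2⟩ | ⟨h1, h2⟩ | ⟨i, j, h1, h2, h3⟩)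
    · exact h2 h1
    · exact h1 h2
    · rw [h1] at h2
      exact h3.ne (Option.some_injective _ h2)⟩

/-- `G` contains no odd wheel: no subgraph of `G` is isomorphic to `W_k` for any odd `k ≥ 3`. -/
def ContainsNoOddWheel {V : Type} (G : SimpleGraph V) : Prop :=
  ∀ k : ℕ, 3 ≤ k → Odd k → ¬ (wheel k).IsContained G

/-- `G` is planar: it has a straight-line drawing in the plane `ℝ × ℝ`, that is, the vertices can
be placed at distinct points so that, when every edge is drawn as the segment between its ends, a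
point that lies on two different edges is a common end of them, and no vertex other than its ends
lies on an edge. (By Fáry's theorem this is the same as planarity for finite simple graphs.) -/
def IsPlanar {V : Type} (G : SimpleGraph V) : Prop :=
  ∃ f : V → ℝ × ℝ, Function.Injective f ∧
    (∀ a b c d : V, G.Adj a b → G.Adj c d → s(a, b) ≠ s(c, d) →
      ∀ p ∈ segment ℝ (f a) (f b), p ∈ segment ℝ (f c) (f d) →
        ∃ w : V, (w = a ∨ w = b) ∧ (w = c ∨ w = d) ∧ p = f w) ∧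
    (∀ a b w : V, G.Adj a b → f w ∈ segment ℝ (f a) (f b) → w = a ∨ w = b)

/-- `L` is a `λ`-assignment for the multiset `λ = {lam 0, …, lam (q-1)}`: the set of all colours
`⋃ v, L v` is the union of disjoint sets `C 0, …, C (q-1)` such that every `L v` has exactly
`lam i` colours in `C i`, for every `i` (so `L v` has `∑ i, lam i` colours). -/
def IsLambdaAssignment {V : Type} {q : ℕ} (lam : Fin q → ℕ) (L : V → Finset ℕ) : Prop :=
  (∀ v, (L v).card = ∑ i, lam i) ∧
  ∃ C : Fin q → Set ℕ, (∀ i j, i ≠ j → Disjoint (C i) (C j)) ∧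
    (⋃ v, (L v : Set ℕ)) = (⋃ i, C i) ∧
    ∀ v i, ((L v : Set ℕ) ∩ C i).ncard = lam i

/-- `G` is `λ`-choosable: for every `λ`-assignment `L` there is a proper colouring `φ` of `G` with
`φ v ∈ L v` for all `v`. -/
def LambdaChoosable {V : Type} {q : ℕ} (lam : Fin q → ℕ) (G : SimpleGraph V) : Prop :=
  ∀ L : V → Finset ℕ, IsLambdaAssignment lam L →
    ∃ φ : V → ℕ, (∀ u v, G.Adj u v → φ u ≠ φ v) ∧ ∀ v, φ v ∈ L v

/-! ## The graph has the required properties -/

theorem isPlanar_Gr : IsPlanar Gr := by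
  refine ⟨fun v => P v.1, fun u v h => Fin.ext (P_inj u.2 v.2 h), ?_, ?_⟩
  · intro a b c d hab hcd hne p hp hq
    exact planar_edges a b c d hab hcd hne p hp hq
  · intro a b w hab hw
    by_contra hcon
    obtain ⟨x, hx⟩ := exists_adj w
    have hne : s(a, b) ≠ s(w, x) := by
      intro h
      apply hcon
      have h1 : w ∈ s(a, b) := h ▸ Sym2.mem_mk_left w x
      exact Sym2.mem_iff.1 h1
    obtain ⟨y, hy1, hy2, hy3⟩ := planar_edges a b w x hab hx hne (P w.1) hw
      (left_mem_segment ℝ _ _)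
    have h2 : w = y := Fin.ext (P_inj w.2 y.2 hy3)
    rw [← h2] at hy1
    exact hcon hy1

theorem noOddWheel_Gr : ContainsNoOddWheel Gr := by
  rintro k hk hodd ⟨f⟩
  have hadj : ∀ i, Gr.Adj (f none) (f (some i)) := fun i =>
    f.toHom.map_adj (Or.inl ⟨rfl, by simp⟩)
  have hrim : ∀ i j, (SimpleGraph.cycleGraph k).Adj i j → Gr.Adj (f (some i)) (f (some j)) :=
    fun i j h => f.toHom.map_adj (Or.inr (Or.inr ⟨i, j, rfl, rfl, h⟩))
  let c : (SimpleGraph.cycleGraph k).Coloring Bool :=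
    SimpleGraph.Coloring.mk (fun i => (row (f none).1).1.testBit (f (some i)).1)
      (fun {i j} h => nbr_col (hadj i) (hadj j) (hrim i j h))
  have h1 : (SimpleGraph.cycleGraph k).Colorable 2 := by
    have := c.colorable
    simpa using this
  have h2 := SimpleGraph.chromaticNumber_cycleGraph_of_odd k (by omega) hodd
  have h3 := h1.chromaticNumber_le
  rw [h2] at h3
  exact absurd h3 (by decide)

theorem isLambdaAssignment_Lst :
    IsLambdaAssignment ![1, 3] (fun v : Fin 327 => Lst v.1) := by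
  refine ⟨fun v => ?_, ![({0} : Finset ℕ), ({1, 2, 3, 4} : Finset ℕ)], ?_, ?_, ?_⟩
  · rw [(Lst_card v.1 v.2).1]
    simp [Fin.sum_univ_two]
  · intro i j hij
    fin_cases i <;> fin_cases j <;> simp_all
  · ext x
    simp only [Set.mem_iUnion, Finset.mem_coe]
    constructor
    · rintro ⟨v, hv⟩
      have h := (Lst_card v.1 v.2).2.2.2 hv
      simp only [Finset.mem_insert, Finset.mem_singleton] at h
      rcases h with rfl | h
      · exact ⟨0, by simp⟩
      · exact ⟨1, by simpa using h⟩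
    · rintro ⟨i, hi⟩
      have hx : x ∈ Lst 0 ∨ x ∈ Lst 9 := by
        have h9 : Lst 9 = {0, 1, 2, 4} := by decide +kernel
        rw [h9]
        fin_cases i
        · simp at hi
          simp [hi]
        · simp at hi
          simp only [Lst, Finset.mem_insert, Finset.mem_singleton]
          norm_num
          omega
      rcases hx with hx | hx
      · exact ⟨⟨0, by norm_num⟩, hx⟩
      · exact ⟨⟨9, by norm_num⟩, hx⟩
  · intro v i
    fin_cases i
    · have h := (Lst_card v.1 v.2).2.1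
      rw [← Set.ncard_coe_finset, Finset.coe_inter] at h
      exact h
    · have h := (Lst_card v.1 v.2).2.2.1
      rw [← Set.ncard_coe_finset, Finset.coe_inter] at h
      exact h

/-- A copy of the template whose two base vertices have the colours it kills. -/
theorem killed {t : ℕ} (ht : t < 18) (φ : ℕ → ℕ) (hφ : ∀ p ∈ E, φ p.1 ≠ φ p.2)
    (hL : ∀ v < 327, φ v ∈ Lst v) (h0 : φ (t / 6) = pm (t % 6) 1)
    (h1 : φ ((t / 6 + 1) % 3) = pm (t % 6) 2) : False := by
  have hc : Perm3 (pm (t % 6) 1) (pm (t % 6) 2) (pm (t % 6) 3) := by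
    have h : ∀ k < 6, (pm k 1 = 1 ∧ pm k 2 = 2 ∧ pm k 3 = 3) ∨
      (pm k 1 = 1 ∧ pm k 2 = 3 ∧ pm k 3 = 2) ∨ (pm k 1 = 2 ∧ pm k 2 = 1 ∧ pm k 3 = 3) ∨
      (pm k 1 = 2 ∧ pm k 2 = 3 ∧ pm k 3 = 1) ∨ (pm k 1 = 3 ∧ pm k 2 = 1 ∧ pm k 3 = 2) ∨
      (pm k 1 = 3 ∧ pm k 2 = 2 ∧ pm k 3 = 1) := by decide
    exact h _ (Nat.mod_lt _ (by norm_num))
  have hpl : ∀ j, 2 ≤ j → j < 20 → pl t j < 327 := by
    intro j h2 h20
    unfold pl
    rw [if_neg (by omega), if_neg (by omega)]
    omega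
  have hhigh : ∀ j, 8 ≤ j → j < 20 → φ (pl t j) = 0 ∨
      φ (pl t j) = pm (t % 6) (octL.getD (j - 8) (1, 2)).1 ∨
      φ (pl t j) = pm (t % 6) (octL.getD (j - 8) (1, 2)).2 ∨ φ (pl t j) = 4 := by
    intro j h8 h20
    have h := hL _ (hpl j (by omega) h20)
    rw [Lst_high h8 h20] at h
    simpa using h
  refine template hc (fun j => φ (pl t j)) (fun p hp => hφ _ (mem_E_copy ht hp)) h0 h1
    (fun j h2 h8 => ?_) (hhigh 8 ?_ ?_) (hhigh 9 ?_ ?_) (hhigh 10 ?_ ?_) (hhigh 11 ?_ ?_)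
    (hhigh 12 ?_ ?_) (hhigh 13 ?_ ?_) (hhigh 14 ?_ ?_) (hhigh 15 ?_ ?_) (hhigh 16 ?_ ?_)
    (hhigh 17 ?_ ?_) (hhigh 18 ?_ ?_) (hhigh 19 ?_ ?_) <;> try norm_num
  have h := hL _ (hpl j h2 (by omega))
  rw [Lst_low h2 h8] at h
  simp only [Finset.mem_insert, Finset.mem_singleton] at h
  omega

theorem not_colourable (φ : Fin 327 → ℕ) (hφ : ∀ u v, Gr.Adj u v → φ u ≠ φ v)
    (hL : ∀ v, φ v ∈ Lst v.1) : False := by
  let ψ : ℕ → ℕ := fun v => if h : v < 327 then φ ⟨v, h⟩ else 0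
  have hψ : ∀ (v : ℕ) (h : v < 327), ψ v = φ ⟨v, h⟩ := fun v h => dif_pos h
  have hE : ∀ p ∈ E, ψ p.1 ≠ ψ p.2 := by
    intro p hp
    obtain ⟨a, b, -⟩ := E_lt hp
    rw [hψ _ a, hψ _ b]
    exact hφ _ _ (Or.inl hp)
  have hLψ : ∀ v < 327, ψ v ∈ Lst v := by
    intro v hv
    rw [hψ v hv]
    exact hL ⟨v, hv⟩
  have b0 : ψ 0 < 4 := by
    have := hLψ 0 (by norm_num)
    simp [Lst] at this
    omega
  have b1 : ψ 1 < 4 := by
    have := hLψ 1 (by norm_num)
    simp [Lst] at this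
    omega
  have b2 : ψ 2 < 4 := by
    have := hLψ 2 (by norm_num)
    simp [Lst] at this
    omega
  have n01 := hE (0, 1) (by simp [E])
  have n12 := hE (1, 2) (by simp [E])
  have n20 := hE (2, 0) (by simp [E])
  simp only at n01 n12 n20
  have key : ∀ e < 3, ψ e ≠ 0 → ψ ((e + 1) % 3) ≠ 0 → ψ e < 4 → ψ ((e + 1) % 3) < 4 →
      ψ e ≠ ψ ((e + 1) % 3) → False := by
    intro e he h1 h2 h3 h4 h5
    have h6 : ∀ a b : Fin 4, a.1 ≠ 0 → b.1 ≠ 0 → a.1 ≠ b.1 →
        ∃ k : Fin 6, pm k.1 1 = a.1 ∧ pm k.1 2 = b.1 := by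
      decide
    obtain ⟨⟨k, hk⟩, k1, k2⟩ := h6 ⟨_, h3⟩ ⟨_, h4⟩ h1 h2 h5
    simp only at k1 k2
    have e1 : (6 * e + k) / 6 = e := by omega
    have e2 : (6 * e + k) % 6 = k := by omega
    refine killed (t := 6 * e + k) (by omega) ψ hE hLψ ?_ ?_
    · rw [e1, e2, k1]
    · rw [e1, e2, k2]
  by_cases h0 : ψ 0 = 0
  · exact key 1 (by norm_num) (by rw [h0] at n01; exact n01.symm) (by rw [h0] at n20; exact n20)
      b1 b2 n12
  · by_cases h1 : ψ 1 = 0
    · exact key 2 (by norm_num) (by rw [h1] at n12; exact n12.symm) h0 b2 b0 n20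
    · exact key 0 (by norm_num) h0 h1 b0 b1 n01

/-! ## The result -/

/-- It is not true that every planar graph containing no odd wheel is `{1,3}`-choosable. -/
theorem result : ¬ ∀ (n : ℕ) (G : SimpleGraph (Fin n)),
    IsPlanar G → ContainsNoOddWheel G → LambdaChoosable ![1, 3] G := by
  intro h
  obtain ⟨φ, h1, h2⟩ := h 327 Gr isPlanar_Gr noOddWheel_Gr _ isLambdaAssignment_Lst
  exact not_colourable φ h1 h2

end Pool.Agent.Results.MP_296adc_co.NotOneThree
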